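import Mathlib

/-!
# Selective high divergence is not dense hereditary, even for compact Hausdorff spaces

The Cantor cube `{0,1}^I` with `I = P(ω) × ℝ` is selectively highly divergent, but its dense
subspace of all points with countable support is sequentially compact.
-/

set_option autoImplicit false

open Set Filter Topology

namespace Pool.Agent.Results.MP_f0fa00_gt.SigmaProduct

/-- `X` is selectively highly divergent: for every sequence of nonempty open sets one can choose
points of these sets such that no subsequence of the sequence of the points converges. -/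
def SHD (X : Type) [TopologicalSpace X] : Prop :=
  ∀ U : ℕ → Set X, (∀ n, IsOpen (U n)) → (∀ n, (U n).Nonempty) →
    ∃ x : ℕ → X, (∀ n, x n ∈ U n) ∧
      ∀ φ : ℕ → ℕ, StrictMono φ → ∀ a : X, ¬ Tendsto (x ∘ φ) atTop (𝓝 a)

/-- the index set -/
abbrev Idx : Type := Set ℕ × ℝ

/-- the Cantor cube -/
abbrev Cube : Type := Idx → Bool

/-- the points with countable support -/
def Sig : Set Cube := {x | {i | x i = true}.Countable}

/-- every open set contains a basic open set -/
theorem exists_basic {U : Set Cube} (hU : IsOpen U) (hne : U.Nonempty) :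
    ∃ (F : Finset Idx) (s : Cube), ∀ x : Cube, (∀ i ∈ F, x i = s i) → x ∈ U := by
  obtain ⟨s, hs⟩ := hne
  rw [isOpen_pi_iff] at hU
  obtain ⟨F, u, hu, hF⟩ := hU s hs
  refine ⟨F, s, fun x hx => hF ?_⟩
  intro i hi
  rw [hx i hi]
  exact (hu i hi).2

theorem shd_cube : SHD Cube := by
  classical
  intro U hU hne
  choose F s hFs using fun n => exists_basic (hU n) (hne n)
  have hcount : (⋃ n, (F n : Set Idx)).Countable := countable_iUnion fun n => (F n).countable_toSet
  let x : ℕ → Cube := fun n i => if i ∈ F n then s n i else decide (n ∈ i.1)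
  refine ⟨x, fun n => hFs n (x n) fun i hi => if_pos hi, ?_⟩
  intro φ hφ a ha
  -- a set which splits the range of `φ`
  let S : Set ℕ := φ '' {k | Even k}
  obtain ⟨t, ht⟩ : ∃ t : ℝ, (S, t) ∉ ⋃ n, (F n : Set Idx) := by
    by_contra hcon
    push Not at hcon
    have h1 : (univ : Set ℝ).Countable := by
      refine (hcount.preimage (f := fun t : ℝ => (S, t)) ?_).mono fun t _ => hcon t
      intro t t' h
      exact (Prod.mk.inj h).2
    exact not_countable (countable_univ_iff.1 h1)
  have hx : ∀ k, x (φ k) (S, t) = decide (Even k) := by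
    intro k
    have h1 : (S, t) ∉ F (φ k) := fun h => ht (mem_iUnion.2 ⟨φ k, h⟩)
    simp only [x, if_neg h1]
    congr 1
    apply propext
    constructor
    · rintro ⟨j, hj, hjk⟩
      rwa [← hφ.injective hjk]
    · intro h
      exact ⟨k, h, rfl⟩
  have h2 : Tendsto (fun k => x (φ k) (S, t)) atTop (𝓝 (a (S, t))) :=
    (tendsto_pi_nhds.1 ha) (S, t)
  simp only [hx] at h2
  rw [nhds_discrete, tendsto_pure] at h2
  obtain ⟨N, hN⟩ := eventually_atTop.1 h2
  have h3 := hN (2 * N) (by omega)
  have h4 := hN (2 * N + 1) (by omega)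
  rw [← h3] at h4
  simp at h4

theorem dense_sig : Dense Sig := by
  classical
  rw [dense_iff_inter_open]
  intro U hU hne
  obtain ⟨F, s, hFs⟩ := exists_basic hU hne
  refine ⟨fun i => if i ∈ F then s i else false, hFs _ fun i hi => if_pos hi, ?_⟩
  refine F.countable_toSet.mono fun i hi => ?_
  by_contra h
  have : (if i ∈ F then s i else false) = true := hi
  rw [if_neg (by simpa using h)] at this
  exact absurd this (by simp)

/-- Every sequence of points with countable support has a convergent subsequence. -/
theorem seq_compact (x : ℕ → Sig) : ∃ φ : ℕ → ℕ, StrictMono φ ∧ ∃ a : Sig,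
    Tendsto (x ∘ φ) atTop (𝓝 a) := by
  classical
  let A : Set Idx := ⋃ n, {i | (x n).1 i = true}
  have hA : A.Countable := countable_iUnion fun n => (x n).2
  have : Countable A := hA.to_subtype
  obtain ⟨b, φ, hφ, hb⟩ := CompactSpace.tendsto_subseq (fun n => (fun i : A => (x n).1 i))
  let a : Cube := fun i => if h : i ∈ A then b ⟨i, h⟩ else false
  have ha : a ∈ Sig := by
    refine hA.mono fun i hi => ?_
    by_contra h
    have h2 : a i = true := hi
    simp only [a, dif_neg h] at h2
    exact absurd h2 (by simp)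
  refine ⟨φ, hφ, ⟨a, ha⟩, ?_⟩
  rw [tendsto_subtype_rng, tendsto_pi_nhds]
  intro i
  by_cases h : i ∈ A
  · have h1 := (tendsto_pi_nhds.1 hb) ⟨i, h⟩
    have h2 : a i = b ⟨i, h⟩ := dif_pos h
    show Tendsto (fun k => (x (φ k)).1 i) atTop (𝓝 (a i))
    rw [h2]
    exact h1
  · have h2 : a i = false := dif_neg h
    show Tendsto (fun k => (x (φ k)).1 i) atTop (𝓝 (a i))
    rw [h2]
    have h3 : ∀ k, (x (φ k)).1 i = false := by
      intro k
      by_contra h4
      exact h (mem_iUnion.2 ⟨φ k, by simpa using h4⟩)
    simp only [h3]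
    exact tendsto_const_nhds

/-- There are a compact Hausdorff selectively highly divergent space and a dense subspace of it
every sequence of which has a convergent subsequence; so this subspace is not selectively highly
divergent. -/
theorem result : ∃ (X : Type) (_ : TopologicalSpace X) (D : Set X), CompactSpace X ∧ T2Space X ∧
    SHD X ∧ Dense D ∧ ¬ SHD D ∧
    ∀ x : ℕ → D, ∃ φ : ℕ → ℕ, StrictMono φ ∧ ∃ a : D, Tendsto (x ∘ φ) atTop (𝓝 a) := by
  refine ⟨Cube, inferInstance, Sig, inferInstance, inferInstance, shd_cube, dense_sig, ?_,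
    seq_compact⟩
  intro h
  have hne : (univ : Set Sig).Nonempty := by
    refine ⟨⟨fun _ => false, ?_⟩, mem_univ _⟩
    simp [Sig]
  obtain ⟨x, _, hx⟩ := h (fun _ => univ) (fun _ => isOpen_univ) (fun _ => hne)
  obtain ⟨φ, hφ, a, ha⟩ := seq_compact x
  exact hx φ hφ a ha

end Pool.Agent.Results.MP_f0fa00_gt.SigmaProduct
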